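import Mathlib
import Pool.Agent.TEQ.P_MRT
import Pool.Agent.ACP.P_LQ

/-!
# PTS: mean values of two multiplicative functions connected with the totient (MP_34ce6f_nt)
-/

set_option autoImplicit false

open Finset

namespace Pool.Agent.PTS

open ArithmeticFunction (vonMangoldt)

/-- upper bound for mean values of functions which decrease under divisibility -/
theorem sum_log (f : ArithmeticFunction ℝ) (hf : ∀ n, 0 ≤ f n)
    (hd : ∀ d n, n ≠ 0 → d ∣ n → f n ≤ f d) (X : ℕ) :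
    ∑ n ∈ Ioc 0 X, f n * Real.log n ≤
      (Real.log 4 + 4) * X * ∑ n ∈ Ioc 0 X, f n / n := by
  have h1 : ∑ n ∈ Ioc 0 X, f n * Real.log n ≤ ∑ n ∈ Ioc 0 X, (f * vonMangoldt) n := by
    refine Finset.sum_le_sum fun n hn => ?_
    rw [ArithmeticFunction.mul_apply, ← ArithmeticFunction.vonMangoldt_sum, Finset.mul_sum,
      Nat.sum_divisorsAntidiagonal' (fun a b => f a * vonMangoldt b)]
    refine Finset.sum_le_sum fun d hd' => ?_
    rw [Finset.mem_Ioc] at hn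
    refine mul_le_mul_of_nonneg_right (hd _ _ hn.1.ne' ?_) ArithmeticFunction.vonMangoldt_nonneg
    exact Nat.div_dvd_of_dvd (Nat.dvd_of_mem_divisors hd')
  refine h1.trans ?_
  rw [ArithmeticFunction.sum_Ioc_mul_eq_sum_sum, Finset.mul_sum]
  refine Finset.sum_le_sum fun n hn => ?_
  rw [Finset.mem_Ioc] at hn
  have h2 : ∑ m ∈ Ioc 0 (X / n), vonMangoldt m ≤ (Real.log 4 + 4) * ((X : ℝ) / n) := by
    have h3 := Chebyshev.psi_le_const_mul_self (x := ((X / n : ℕ) : ℝ)) (Nat.cast_nonneg _)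
    rw [Chebyshev.psi, Nat.floor_natCast] at h3
    refine h3.trans ?_
    have h4 : 0 ≤ Real.log 4 + 4 := by
      have := Real.log_nonneg (show (1 : ℝ) ≤ 4 by norm_num)
      linarith
    exact mul_le_mul_of_nonneg_left Nat.cast_div_le h4
  calc f n * ∑ m ∈ Ioc 0 (X / n), vonMangoldt m
      ≤ f n * ((Real.log 4 + 4) * ((X : ℝ) / n)) := mul_le_mul_of_nonneg_left h2 (hf n)
    _ = (Real.log 4 + 4) * X * (f n / n) := by ring

/-- finite sums of a multiplicative function are at most the Euler product -/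
theorem sum_le_prod (g : ℕ → ℝ) (h0 : ∀ n, 0 ≤ g n) (h1 : g 1 = 1)
    (hm : ∀ {m n : ℕ}, Nat.Coprime m n → g (m * n) = g m * g n) (s : ℕ → ℝ)
    (hs : ∀ {p : ℕ}, p.Prime → HasSum (fun k : ℕ => g (p ^ k)) (s p)) (X : ℕ) :
    ∑ n ∈ Ioc 0 X, g n ≤ ∏ p ∈ TEQ.PP X, s p := by
  classical
  have hsum : ∀ {p : ℕ}, p.Prime → Summable (fun n : ℕ => ‖g (p ^ n)‖) := by
    intro p hp
    refine (hs hp).summable.congr fun n => ?_
    rw [Real.norm_of_nonneg (h0 _)]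
  obtain ⟨-, h3⟩ := EulerProduct.summable_and_hasSum_smoothNumbers_prod_primesBelow_tsum h1 hm
    hsum (X + 1)
  have h4 : ∏ p ∈ (X + 1).primesBelow, ∑' n : ℕ, g (p ^ n) = ∏ p ∈ TEQ.PP X, s p := by
    have h5 : (X + 1).primesBelow = TEQ.PP X := by
      ext p
      unfold TEQ.PP
      simp [Nat.primesBelow]
    rw [h5]
    refine Finset.prod_congr rfl fun p hp => ?_
    unfold TEQ.PP at hp
    exact (hs (Finset.mem_filter.1 hp).2).tsum_eq
  rw [h4] at h3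
  have hmem : ∀ n ∈ Ioc 0 X, n ∈ (X + 1).smoothNumbers := by
    intro n hn
    rw [Finset.mem_Ioc] at hn
    exact Nat.mem_smoothNumbers_of_lt hn.1 (by omega)
  have h6 : ∑ n ∈ Ioc 0 X, g n = ∑ n ∈ (Ioc 0 X).attach.image
      (fun n => (⟨n.1, hmem n.1 n.2⟩ : (X + 1).smoothNumbers)), g n := by
    rw [Finset.sum_image]
    · exact (Finset.sum_attach (Ioc 0 X) g).symm
    · intro a _ b _ h
      exact Subtype.ext (congrArg (fun z : (X + 1).smoothNumbers => z.1) h)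
  rw [h6]
  exact sum_le_hasSum _ (fun n _ => h0 _) h3

/-- summation by parts with the weight `x⁻²` -/
theorem swap (f : ℕ → ℝ) (K : ℝ) (Y : ℕ) (hY : 0 < Y) (hf : ∀ n, 0 ≤ f n)
    (h : ∀ k, Y < k → ∑ n ∈ Ioc 0 k, f n ≤ K * k) (M : ℕ) (hM : Y ≤ M) :
    ∑ x ∈ Ioc Y M, f x / (x : ℝ) ^ 2 ≤ 2 * K / Y := by
  have hK : 0 ≤ K := by
    have h1 := h (Y + 1) (by omega)
    have h2 : 0 ≤ ∑ n ∈ Ioc 0 (Y + 1), f n := Finset.sum_nonneg fun n _ => hf n
    have h3 : (0 : ℝ) < ((Y + 1 : ℕ) : ℝ) := by positivity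
    exact nonneg_of_mul_nonneg_left (h2.trans h1) h3
  have key : ∀ M, Y ≤ M → ∑ x ∈ Ioc Y M, f x / (x : ℝ) ^ 2 ≤
      ∑ k ∈ Ioc Y M, (∑ n ∈ Ioc 0 k, f n) * (1 / (k : ℝ) ^ 2 - 1 / ((k : ℝ) + 1) ^ 2) +
        (∑ n ∈ Ioc 0 M, f n) / ((M : ℝ) + 1) ^ 2 := by
    intro M hM
    induction M, hM using Nat.le_induction with
    | base =>
      simp only [Finset.Ioc_self, Finset.sum_empty, zero_add]
      exact div_nonneg (Finset.sum_nonneg fun n _ => hf n) (by positivity)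
    | succ M hM ih =>
      have e : Ioc Y (M + 1) = insert (M + 1) (Ioc Y M) := by
        ext n
        simp only [Finset.mem_Ioc, Finset.mem_insert]
        omega
      have e' : Ioc 0 (M + 1) = insert (M + 1) (Ioc 0 M) := by
        ext n
        simp only [Finset.mem_Ioc, Finset.mem_insert]
        omega
      have hn : M + 1 ∉ Ioc Y M := by simp
      have hn' : M + 1 ∉ Ioc 0 M := by simp
      rw [e, Finset.sum_insert hn, Finset.sum_insert hn]
      have e2 : ∑ n ∈ Ioc 0 (M + 1), f n = f (M + 1) + ∑ n ∈ Ioc 0 M, f n := by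
        rw [e', Finset.sum_insert hn']
      rw [e2]
      push_cast
      set A := ∑ n ∈ Ioc 0 M, f n
      have e3 : (f (M + 1) + A) * (1 / ((M : ℝ) + 1) ^ 2 - 1 / ((M : ℝ) + 1 + 1) ^ 2) =
          f (M + 1) / ((M : ℝ) + 1) ^ 2 + A / ((M : ℝ) + 1) ^ 2 -
            (f (M + 1) + A) / ((M : ℝ) + 1 + 1) ^ 2 := by ring
      rw [e3]
      linarith
  have tele : ∀ M, Y ≤ M → ∑ k ∈ Ioc Y M, (k : ℝ) * (1 / (k : ℝ) ^ 2 - 1 / ((k : ℝ) + 1) ^ 2) ≤
      2 * (1 / ((Y : ℝ) + 1) - 1 / ((M : ℝ) + 1)) := by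
    intro M hM
    induction M, hM using Nat.le_induction with
    | base => simp
    | succ M hM ih =>
      have e : Ioc Y (M + 1) = insert (M + 1) (Ioc Y M) := by
        ext n
        simp only [Finset.mem_Ioc, Finset.mem_insert]
        omega
      rw [e, Finset.sum_insert (by simp)]
      push_cast
      have hm : (0 : ℝ) ≤ M := Nat.cast_nonneg M
      have h1 : ((M : ℝ) + 1) * (1 / ((M : ℝ) + 1) ^ 2 - 1 / ((M : ℝ) + 1 + 1) ^ 2) ≤
          2 * (1 / ((M : ℝ) + 1) - 1 / ((M : ℝ) + 1 + 1)) := by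
        have e1 : ((M : ℝ) + 1) * (1 / ((M : ℝ) + 1) ^ 2 - 1 / ((M : ℝ) + 1 + 1) ^ 2) =
            (2 * (M : ℝ) + 3) / (((M : ℝ) + 1) * ((M : ℝ) + 1 + 1) ^ 2) := by
          field_simp
          ring
        have e2 : 2 * (1 / ((M : ℝ) + 1) - 1 / ((M : ℝ) + 1 + 1)) =
            (2 * ((M : ℝ) + 1 + 1)) / (((M : ℝ) + 1) * ((M : ℝ) + 1 + 1) ^ 2) := by
          field_simp
          ring
        rw [e1, e2]
        exact div_le_div_of_nonneg_right (by linarith) (by positivity)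
      linarith
  have h1 := key M hM
  have h2 : ∑ k ∈ Ioc Y M, (∑ n ∈ Ioc 0 k, f n) * (1 / (k : ℝ) ^ 2 - 1 / ((k : ℝ) + 1) ^ 2) ≤
      K * ∑ k ∈ Ioc Y M, (k : ℝ) * (1 / (k : ℝ) ^ 2 - 1 / ((k : ℝ) + 1) ^ 2) := by
    rw [Finset.mul_sum]
    refine Finset.sum_le_sum fun k hk => ?_
    rw [Finset.mem_Ioc] at hk
    have hk0 : (0 : ℝ) < k := by exact_mod_cast (by omega : 0 < k)
    have h3 : 0 ≤ 1 / (k : ℝ) ^ 2 - 1 / ((k : ℝ) + 1) ^ 2 := by
      rw [sub_nonneg]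
      exact one_div_le_one_div_of_le (by positivity) (by nlinarith)
    calc _ ≤ (K * k) * (1 / (k : ℝ) ^ 2 - 1 / ((k : ℝ) + 1) ^ 2) :=
          mul_le_mul_of_nonneg_right (h k hk.1) h3
      _ = _ := by ring
  have h3 := mul_le_mul_of_nonneg_left (tele M hM) hK
  have hY' : (0 : ℝ) < Y := by exact_mod_cast hY
  have hM' : (Y : ℝ) ≤ M := by exact_mod_cast hM
  rcases hM.eq_or_lt with h4 | h4
  · subst h4
    simp only [Finset.Ioc_self, Finset.sum_empty]
    positivity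
  · have h5 : (∑ n ∈ Ioc 0 M, f n) / ((M : ℝ) + 1) ^ 2 ≤ K * (1 / ((M : ℝ) + 1)) := by
      rw [div_le_iff₀ (by positivity)]
      have e1 : K * (1 / ((M : ℝ) + 1)) * ((M : ℝ) + 1) ^ 2 = K * ((M : ℝ) + 1) := by
        field_simp
      rw [e1]
      have := h M h4
      nlinarith
    have h6 : 1 / ((Y : ℝ) + 1) ≤ 1 / Y := one_div_le_one_div_of_le hY' (by linarith)
    have h7 : 0 ≤ K * (1 / ((M : ℝ) + 1)) := by positivity
    have h8 := mul_le_mul_of_nonneg_left h6 hK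
    have e9 : 2 * K / (Y : ℝ) = 2 * (K * (1 / Y)) := by ring
    rw [e9]
    nlinarith

end Pool.Agent.PTS
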