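import Mathlib
import Pool.Agent.PTS.Sum

/-!
# PTS: mean values of `n/φ(n)` and of `2^(-ω(n)) n/φ(n)` (MP_34ce6f_nt)
-/

set_option autoImplicit false

open Finset

namespace Pool.Agent.PTS

open Pool.Agent.ACP (f2)
open Pool.Agent.ACP.LQ_ (ff gg)

theorem prod_one_add_le (s : Finset ℕ) (a : ℕ → ℝ) (h : ∀ p ∈ s, 0 ≤ a p) :
    ∏ p ∈ s, (1 + a p) ≤ Real.exp (∑ p ∈ s, a p) := by
  rw [Real.exp_sum]
  refine Finset.prod_le_prod (fun p hp => by linarith [h p hp]) fun p _ => ?_
  linarith [Real.add_one_le_exp (a p)]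

theorem prime_of_mem {X p : ℕ} (h : p ∈ TEQ.PP X) : p.Prime := by
  unfold TEQ.PP at h
  exact (Finset.mem_filter.1 h).2

/-- mean value of `n/φ(n)` -/
theorem mean_h (X : ℕ) : ∑ n ∈ Ioc 0 X, (n : ℝ) / (Nat.totient n : ℝ) ≤ Real.exp 1 * X := by
  have h1 : ∑ n ∈ Ioc 0 X, (n : ℝ) / (Nat.totient n : ℝ) =
      ∑ n ∈ Ioc 0 X, f2 n * ((X / n : ℕ) : ℝ) := by
    have h2 := ArithmeticFunction.sum_Ioc_mul_zeta_eq_sum ff X
    rw [mul_comm, ACP.LQ_.key] at h2
    exact h2
  rw [h1]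
  have h3 : ∑ n ∈ Ioc 0 X, f2 n / n ≤ Real.exp 1 := by
    have h4 := sum_le_prod (fun n => f2 n / n)
      (fun n => div_nonneg (ACP.LQ_.f2_nonneg n) (Nat.cast_nonneg n))
      (by simp [ACP.LQ_.f2_of_sq squarefree_one])
      (fun {m n} h => by
        simp only [ACP.LQ_.f2_mul h]
        push_cast
        ring) (fun p => 1 + 1 / ((p : ℝ) * (p - 1)))
      (fun {p} hp => by
        have h5 : ∀ k ∉ Finset.range 2, f2 (p ^ k) / ((p ^ k : ℕ) : ℝ) = 0 := by
          intro k hk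
          rw [Finset.mem_range, not_lt] at hk
          have h6 : ¬ Squarefree (p ^ k) := by
            intro h
            have h7 : p * p ∣ p ^ k := by
              rw [← pow_two]
              exact pow_dvd_pow p hk
            have h8 := h p h7
            rw [Nat.isUnit_iff] at h8
            exact hp.one_lt.ne' h8
          rw [ACP.LQ_.f2_of_not h6, zero_div]
        have h9 : HasSum (fun k : ℕ => f2 (p ^ k) / ((p ^ k : ℕ) : ℝ))
            (∑ k ∈ Finset.range 2, f2 (p ^ k) / ((p ^ k : ℕ) : ℝ)) :=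
          hasSum_sum_of_ne_finset_zero h5
        have h10 : ∑ k ∈ Finset.range 2, f2 (p ^ k) / ((p ^ k : ℕ) : ℝ) =
            1 + 1 / ((p : ℝ) * (p - 1)) := by
          rw [Finset.sum_range_succ, Finset.sum_range_one, pow_zero, pow_one,
            ACP.LQ_.f2_of_sq squarefree_one, ACP.LQ_.f2_of_sq hp.prime.squarefree,
            Nat.totient_prime hp, Nat.totient_one, Nat.cast_sub hp.one_le, Nat.cast_one]
          have e1 : 1 / ((p : ℝ) - 1) / p = 1 / ((p : ℝ) * (p - 1)) := by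
            rw [div_div, mul_comm ((p : ℝ) - 1)]
          rw [e1]
          norm_num
        rw [h10] at h9
        exact h9) X
    refine h4.trans ((prod_one_add_le _ _ fun p hp => ?_).trans ?_)
    · have := (prime_of_mem hp).one_lt
      have h5 : (1 : ℝ) < p := by exact_mod_cast this
      have h6 : 0 < (p : ℝ) - 1 := by linarith
      positivity
    · rcases Nat.eq_zero_or_pos X with rfl | hX
      · have h5 : TEQ.PP 0 = ∅ := by
          unfold TEQ.PP
          decide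
        rw [h5, Finset.sum_empty]
        exact Real.exp_le_exp.2 zero_le_one
      · exact Real.exp_le_exp.2 (TEQ.MRT_.sum_sq X hX)
  calc ∑ n ∈ Ioc 0 X, f2 n * ((X / n : ℕ) : ℝ)
      ≤ ∑ n ∈ Ioc 0 X, (X : ℝ) * (f2 n / n) := by
        refine Finset.sum_le_sum fun n _ => ?_
        have h5 : ((X / n : ℕ) : ℝ) ≤ (X : ℝ) / n := Nat.cast_div_le
        calc f2 n * ((X / n : ℕ) : ℝ) ≤ f2 n * ((X : ℝ) / n) :=
              mul_le_mul_of_nonneg_left h5 (ACP.LQ_.f2_nonneg n)
          _ = (X : ℝ) * (f2 n / n) := by ring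
    _ = X * ∑ n ∈ Ioc 0 X, f2 n / n := by rw [Finset.mul_sum]
    _ ≤ X * Real.exp 1 := mul_le_mul_of_nonneg_left h3 (Nat.cast_nonneg _)
    _ = Real.exp 1 * X := mul_comm _ _

/-- local factor -/
noncomputable def cc (p : ℕ) : ℝ := 1 / 2 * (1 - 1 / (p : ℝ))⁻¹

/-- `2^(-ω(n)) n/φ(n)` -/
noncomputable def ww : ArithmeticFunction ℝ :=
  ⟨fun n => (1 / 2) ^ n.primeFactors.card * ((n : ℝ) / (Nat.totient n : ℝ)), by simp⟩

theorem ww_apply (n : ℕ) :
    ww n = (1 / 2) ^ n.primeFactors.card * ((n : ℝ) / (Nat.totient n : ℝ)) := rfl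

theorem cc_bd {p : ℕ} (hp : p.Prime) : 0 < cc p ∧ cc p ≤ 1 := by
  have h2 : (2 : ℝ) ≤ p := by exact_mod_cast hp.two_le
  have h3 : 1 / (p : ℝ) ≤ 1 / 2 := one_div_le_one_div_of_le (by norm_num) h2
  have h4 : 0 < 1 / (p : ℝ) := by positivity
  have h5 : 1 / 2 ≤ 1 - 1 / (p : ℝ) := by linarith
  have h6 : (1 - 1 / (p : ℝ))⁻¹ ≤ 2 := by
    have := inv_anti₀ (by norm_num : (0 : ℝ) < 1 / 2) h5
    norm_num at this ⊢
    exact this
  have h7 : 0 < (1 - 1 / (p : ℝ))⁻¹ := inv_pos.2 (by linarith)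
  unfold cc
  constructor
  · positivity
  · linarith

theorem ww_eq {n : ℕ} (hn : n ≠ 0) : ww n = ∏ p ∈ n.primeFactors, cc p := by
  have h1 := Nat.totient_eq_mul_prod_factors n
  have h2 : (Nat.totient n : ℝ) = n * ∏ p ∈ n.primeFactors, (1 - (p : ℝ)⁻¹) := by
    have h3 := congrArg (fun x : ℚ => (x : ℝ)) h1
    push_cast at h3
    exact h3
  have hn' : (n : ℝ) ≠ 0 := Nat.cast_ne_zero.2 hn
  rw [ww_apply, h2]
  unfold cc
  rw [Finset.prod_mul_distrib, Finset.prod_const, Finset.prod_inv_distrib]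
  simp only [one_div]
  rw [← div_div, div_self hn', one_div]

theorem ww_nonneg (n : ℕ) : 0 ≤ ww n := by
  rw [ww_apply]
  positivity

theorem ww_le {n : ℕ} (hn : n ≠ 0) : ww n ≤ 1 := by
  rw [ww_eq hn]
  exact Finset.prod_le_one (fun p hp => (cc_bd (Nat.prime_of_mem_primeFactors hp)).1.le)
    fun p hp => (cc_bd (Nat.prime_of_mem_primeFactors hp)).2

theorem ww_anti (d n : ℕ) (hn : n ≠ 0) (h : d ∣ n) : ww n ≤ ww d := by
  have hd : d ≠ 0 := fun h0 => hn (Nat.eq_zero_of_zero_dvd (h0 ▸ h))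
  rw [ww_eq hn, ww_eq hd]
  have hsub : d.primeFactors ⊆ n.primeFactors := Nat.primeFactors_mono h hn
  rw [← Finset.prod_sdiff hsub]
  have h1 : ∏ p ∈ n.primeFactors \ d.primeFactors, cc p ≤ 1 :=
    Finset.prod_le_one
      (fun p hp => (cc_bd (Nat.prime_of_mem_primeFactors (Finset.mem_sdiff.1 hp).1)).1.le)
      fun p hp => (cc_bd (Nat.prime_of_mem_primeFactors (Finset.mem_sdiff.1 hp).1)).2
  have h2 : 0 ≤ ∏ p ∈ d.primeFactors, cc p :=
    Finset.prod_nonneg fun p hp => (cc_bd (Nat.prime_of_mem_primeFactors hp)).1.le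
  exact mul_le_of_le_one_left h2 h1

theorem ww_one : ww 1 = 1 := by
  rw [ww_eq one_ne_zero]
  simp

theorem ww_mul {m n : ℕ} (h : m.Coprime n) : ww (m * n) = ww m * ww n := by
  rw [ww_apply, ww_apply, ww_apply, Nat.totient_mul h, h.primeFactors_mul,
    Finset.card_union_of_disjoint h.disjoint_primeFactors, pow_add]
  push_cast
  rw [mul_div_mul_comm]
  ring

theorem ww_pow {p : ℕ} (hp : p.Prime) {k : ℕ} (hk : k ≠ 0) : ww (p ^ k) = cc p := by
  rw [ww_eq (pow_ne_zero k hp.ne_zero), Nat.primeFactors_prime_pow hk hp, Finset.prod_singleton]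

/-- the logarithmic mean value -/
theorem log_mean : ∃ C : ℝ, 0 < C ∧ ∀ X : ℕ, 2 ≤ X →
    ∑ n ∈ Ioc 0 X, ww n / n ≤ C * √(Real.log X) := by
  obtain ⟨C, hC, h⟩ := SSC.p_MER
  refine ⟨Real.exp (C / 2 + 2), Real.exp_pos _, fun X hX => ?_⟩
  have h4 := sum_le_prod (fun n => ww n / n)
      (fun n => div_nonneg (ww_nonneg n) (Nat.cast_nonneg n))
      (by simp [ww_one])
      (fun {m n} h => by
        simp only [ww_mul h]
        push_cast
        ring) (fun p => 1 + cc p / (p - 1))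
      (fun {p} hp => by
        have hp1 : (1 : ℝ) < p := by exact_mod_cast hp.one_lt
        have hg : HasSum (fun k : ℕ => (1 / (p : ℝ)) ^ k) (1 - 1 / (p : ℝ))⁻¹ :=
          hasSum_geometric_of_lt_one (by positivity) (by
            rw [div_lt_one (by linarith)]
            exact hp1)
        have hg2 := hg.mul_left (cc p / p)
        have hne : (p : ℝ) - 1 ≠ 0 := by linarith
        have hne' : (p : ℝ) ≠ 0 := by linarith
        have e1 : cc p / p * (1 - 1 / (p : ℝ))⁻¹ = cc p / (p - 1) := by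
          rw [one_sub_div hne', inv_div, div_mul_div_comm, mul_comm (p : ℝ) _,
            mul_div_mul_right _ _ hne']
        rw [e1] at hg2
        have hg3 : HasSum (fun k : ℕ => ww (p ^ (k + 1)) / ((p ^ (k + 1) : ℕ) : ℝ))
            (cc p / (p - 1)) := by
          refine hg2.congr_fun fun k => ?_
          rw [ww_pow hp (Nat.succ_ne_zero k)]
          push_cast
          rw [one_div, inv_pow, pow_succ]
          field_simp
        have hg4 := (hasSum_nat_add_iff (f := fun k : ℕ => ww (p ^ k) / ((p ^ k : ℕ) : ℝ)) 1).1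
          hg3
        simp only [Finset.sum_range_one, pow_zero, Nat.cast_one, ww_one, div_one] at hg4
        rw [add_comm]
        exact hg4) X
  refine h4.trans ((prod_one_add_le _ _ fun p hp => ?_).trans ?_)
  · have hp' := prime_of_mem hp
    have h5 : (1 : ℝ) < p := by exact_mod_cast hp'.one_lt
    exact div_nonneg (cc_bd hp').1.le (by linarith)
  · have hX' : (2 : ℝ) ≤ X := by exact_mod_cast hX
    have h1 := h X hX'
    rw [TEQ.MRT_.pri_eq] at h1
    have h2 := (abs_le.1 h1).2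
    have h3 : ∑ p ∈ TEQ.PP X, cc p / ((p : ℝ) - 1) ≤
        1 / 2 * (∑ p ∈ TEQ.PP X, 1 / (p : ℝ)) +
          2 * ∑ p ∈ TEQ.PP X, 1 / ((p : ℝ) * (p - 1)) := by
      rw [Finset.mul_sum, Finset.mul_sum, ← Finset.sum_add_distrib]
      refine Finset.sum_le_sum fun p hp => ?_
      have h5 : (2 : ℝ) ≤ p := by exact_mod_cast (prime_of_mem hp).two_le
      have h6 : (0 : ℝ) < (p : ℝ) - 1 := by linarith
      have e1 : cc p / ((p : ℝ) - 1) = p / (2 * ((p : ℝ) - 1) ^ 2) := by
        unfold cc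
        rw [one_sub_div (by linarith), inv_div]
        field_simp
      have e2 : 1 / 2 * (1 / (p : ℝ)) + 2 * (1 / ((p : ℝ) * (p - 1))) =
          (((p : ℝ) - 1) ^ 2 + 4 * (p - 1)) / (2 * p * (p - 1) ^ 2) := by
        field_simp
        ring
      have e3 : (p : ℝ) / (2 * ((p : ℝ) - 1) ^ 2) = p ^ 2 / (2 * p * (p - 1) ^ 2) := by
        field_simp
      rw [e1, e2, e3]
      refine div_le_div_of_nonneg_right ?_ (by positivity)
      nlinarith
    have h5 := TEQ.MRT_.sum_sq X (by omega)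
    have hlog : 0 < Real.log X := Real.log_pos (by linarith)
    calc Real.exp (∑ p ∈ TEQ.PP X, cc p / ((p : ℝ) - 1))
        ≤ Real.exp ((C / 2 + 2) + 1 / 2 * Real.log (Real.log X)) :=
          Real.exp_le_exp.2 (by linarith)
      _ = Real.exp (C / 2 + 2) * √(Real.log X) := by
          rw [Real.exp_add]
          congr 1
          rw [Real.sqrt_eq_rpow, Real.rpow_def_of_pos hlog]
          ring_nf

end Pool.Agent.PTS
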