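import Mathlib
import Pool.Agent.PTS.Fun

/-!
# PTS: integers `x` with `φ(x²) ≤ N` (MP_34ce6f_nt)
-/

set_option autoImplicit false

open Finset

namespace Pool.Agent.PTS

/-- mean value of `ww` -/
theorem mean_ww : ∃ C : ℝ, 0 < C ∧ ∀ X : ℕ, 2 ≤ X →
    ∑ n ∈ Ioc 0 X, ww n ≤ C / √(Real.log X) * X := by
  obtain ⟨C, hC, h⟩ := log_mean
  have hc : 0 < Real.log 4 + 4 := by
    have := Real.log_nonneg (show (1 : ℝ) ≤ 4 by norm_num)
    linarith
  refine ⟨2 * (Real.log 4 + 4) * C + 2, by positivity, fun X hX => ?_⟩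
  have hX' : (2 : ℝ) ≤ X := by exact_mod_cast hX
  have hL : 0 < Real.log X := Real.log_pos (by linarith)
  have h1 := sum_log ww ww_nonneg ww_anti X
  have h2 := h X hX
  have h3 : (∑ n ∈ Ioc 0 X, ww n) * Real.log X ≤
      2 * ∑ n ∈ Ioc 0 X, ww n * Real.log n + √(X : ℝ) * Real.log X := by
    rw [Finset.sum_mul]
    have h4 : ∀ n ∈ Ioc 0 X, ww n * Real.log X ≤
        2 * (ww n * Real.log n) + (if n ≤ Nat.sqrt X then Real.log X else 0) := by
      intro n hn
      rw [Finset.mem_Ioc] at hn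
      have hn' : (1 : ℝ) ≤ n := by exact_mod_cast hn.1
      have h5 := ww_nonneg n
      have h6 := ww_le hn.1.ne'
      have h7 := Real.log_nonneg hn'
      split_ifs with h8
      · nlinarith [mul_nonneg h5 h7]
      · rw [not_le, Nat.sqrt_lt'] at h8
        have h9 : (X : ℝ) ≤ (n : ℝ) ^ 2 := by exact_mod_cast h8.le
        have h10 : Real.log X ≤ 2 * Real.log n := by
          have := Real.log_le_log (by linarith) h9
          rw [Real.log_pow] at this
          exact_mod_cast this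
        nlinarith
    refine (Finset.sum_le_sum h4).trans ?_
    rw [Finset.sum_add_distrib, ← Finset.mul_sum, ← Finset.sum_filter, Finset.sum_const,
      nsmul_eq_mul]
    have h5 : (((Ioc 0 X).filter fun n => n ≤ Nat.sqrt X).card : ℝ) ≤ √(X : ℝ) := by
      have h6 : ((Ioc 0 X).filter fun n => n ≤ Nat.sqrt X) ⊆ Ioc 0 (Nat.sqrt X) := by
        intro n hn
        rw [Finset.mem_filter, Finset.mem_Ioc] at hn
        exact Finset.mem_Ioc.2 ⟨hn.1.1, hn.2⟩
      have h7 := Finset.card_le_card h6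
      rw [Nat.card_Ioc, Nat.sub_zero] at h7
      calc (((Ioc 0 X).filter fun n => n ≤ Nat.sqrt X).card : ℝ) ≤ (Nat.sqrt X : ℝ) := by
            exact_mod_cast h7
        _ ≤ √(X : ℝ) := Real.nat_sqrt_le_real_sqrt
    linarith [mul_le_mul_of_nonneg_right h5 hL.le]
  have hs : 0 < √(Real.log X) := Real.sqrt_pos.2 hL
  have hss : √(Real.log X) * √(Real.log X) = Real.log X := Real.mul_self_sqrt hL.le
  have hsx : √(X : ℝ) * √(X : ℝ) = X := Real.mul_self_sqrt (by linarith)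
  have h8 : √(Real.log X) ≤ 2 * √(X : ℝ) := by
    have h9 : Real.log X ≤ X := (Real.log_le_sub_one_of_pos (by linarith)).trans (by linarith)
    have h10 := Real.sqrt_le_sqrt h9
    have := Real.sqrt_nonneg (X : ℝ)
    linarith
  have h9 : (∑ n ∈ Ioc 0 X, ww n) * √(Real.log X) ≤ (2 * (Real.log 4 + 4) * C + 2) * X := by
    have h10 : (∑ n ∈ Ioc 0 X, ww n) * √(Real.log X) * √(Real.log X) ≤
        (2 * (Real.log 4 + 4) * C + 2) * X * √(Real.log X) := by
      calc (∑ n ∈ Ioc 0 X, ww n) * √(Real.log X) * √(Real.log X)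
          = (∑ n ∈ Ioc 0 X, ww n) * Real.log X := by rw [mul_assoc, hss]
        _ ≤ 2 * ((Real.log 4 + 4) * X * (C * √(Real.log X))) + √(X : ℝ) * Real.log X := by
            refine h3.trans (add_le_add_left (mul_le_mul_of_nonneg_left (h1.trans ?_)
              (by norm_num)) _)
            exact mul_le_mul_of_nonneg_left h2 (by positivity)
        _ = 2 * (Real.log 4 + 4) * C * X * √(Real.log X) +
              √(X : ℝ) * √(Real.log X) * √(Real.log X) := by
            rw [mul_assoc (√(X : ℝ)), hss]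
            ring
        _ ≤ 2 * (Real.log 4 + 4) * C * X * √(Real.log X) +
              √(X : ℝ) * (2 * √(X : ℝ)) * √(Real.log X) := by
            gcongr
        _ = 2 * (Real.log 4 + 4) * C * X * √(Real.log X) +
              2 * (√(X : ℝ) * √(X : ℝ)) * √(Real.log X) := by ring
        _ = (2 * (Real.log 4 + 4) * C + 2) * X * √(Real.log X) := by
            rw [hsx]
            ring
    exact le_of_mul_le_mul_right h10 hs
  rw [div_mul_eq_mul_div, le_div_iff₀ hs]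
  exact h9

/-- the integers with `φ(x²) = x φ(x) ≤ N` -/
def WW (N : ℕ) : Finset ℕ := (Ioc 0 N).filter fun x => x * Nat.totient x ≤ N

theorem sqrt_bd {N : ℕ} (hN : 1 ≤ N) :
    0 < Nat.sqrt N ∧ ((Nat.sqrt N : ℕ) : ℝ) ≤ √(N : ℝ) ∧ √(N : ℝ) ≤ 2 * (Nat.sqrt N : ℕ) := by
  have h1 : 0 < Nat.sqrt N := Nat.sqrt_pos.2 hN
  refine ⟨h1, Real.nat_sqrt_le_real_sqrt, ?_⟩
  have h2 : N < (Nat.sqrt N + 1) ^ 2 := by
    rw [pow_two]
    exact Nat.lt_succ_sqrt N
  have h3 : √(N : ℝ) ≤ (Nat.sqrt N : ℕ) + 1 := by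
    rw [Real.sqrt_le_left (by positivity)]
    exact_mod_cast h2.le
  have h4 : (1 : ℝ) ≤ (Nat.sqrt N : ℕ) := by exact_mod_cast h1
  linarith

theorem weight {N x : ℕ} (h : x ∈ WW N) :
    1 ≤ (x : ℝ) / (Nat.totient x : ℝ) ∧
      1 ≤ (x : ℝ) / (Nat.totient x : ℝ) / (x : ℝ) ^ 2 * N := by
  unfold WW at h
  rw [Finset.mem_filter, Finset.mem_Ioc] at h
  have h1 : (0 : ℝ) < x := by exact_mod_cast h.1.1
  have h2 : (0 : ℝ) < Nat.totient x := by exact_mod_cast Nat.totient_pos.2 h.1.1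
  have h3 : (Nat.totient x : ℝ) ≤ x := by exact_mod_cast Nat.totient_le x
  have h4 : (x : ℝ) * Nat.totient x ≤ N := by exact_mod_cast h.2
  constructor
  · rw [le_div_iff₀ h2]
    linarith
  · have e : (x : ℝ) / (Nat.totient x : ℝ) / (x : ℝ) ^ 2 * N =
        N / (x * Nat.totient x) := by
      field_simp
    rw [e, le_div_iff₀ (by positivity)]
    linarith

theorem split_sum (N : ℕ) (hN : 1 ≤ N) (f g : ℕ → ℝ) (hg : ∀ x, 0 ≤ g x)
    (h1 : ∀ x ∈ WW N, f x ≤ g x) (h2 : ∀ x ∈ WW N, f x ≤ g x / (x : ℝ) ^ 2 * N) :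
    ∑ x ∈ WW N, f x ≤
      ∑ x ∈ Ioc 0 (Nat.sqrt N), g x + N * ∑ x ∈ Ioc (Nat.sqrt N) N, g x / (x : ℝ) ^ 2 := by
  have hs : Nat.sqrt N ≤ N := Nat.sqrt_le_self N
  have h3 : ∑ x ∈ WW N, f x ≤ ∑ x ∈ Ioc 0 N,
      (if x ≤ Nat.sqrt N then g x else N * (g x / (x : ℝ) ^ 2)) := by
    calc ∑ x ∈ WW N, f x ≤ ∑ x ∈ WW N,
          (if x ≤ Nat.sqrt N then g x else N * (g x / (x : ℝ) ^ 2)) := by
          refine Finset.sum_le_sum fun x hx => ?_
          split_ifs
          · exact h1 x hx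
          · rw [mul_comm]
            exact h2 x hx
      _ ≤ _ := by
          refine Finset.sum_le_sum_of_subset_of_nonneg (Finset.filter_subset _ _) fun x _ _ => ?_
          have := hg x
          split_ifs
          · exact this
          · positivity
  refine h3.trans (le_of_eq ?_)
  have e : Ioc 0 N = Ioc 0 (Nat.sqrt N) ∪ Ioc (Nat.sqrt N) N :=
    (Finset.Ioc_union_Ioc_eq_Ioc (Nat.zero_le _) hs).symm
  rw [e, Finset.sum_union]
  · congr 1
    · refine Finset.sum_congr rfl fun x hx => ?_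
      rw [Finset.mem_Ioc] at hx
      rw [if_pos hx.2]
    · rw [Finset.mul_sum]
      refine Finset.sum_congr rfl fun x hx => ?_
      rw [Finset.mem_Ioc] at hx
      rw [if_neg (by omega)]
  · rw [Finset.disjoint_left]
    intro x hx hx'
    rw [Finset.mem_Ioc] at hx hx'
    omega

theorem card_WW : ∃ C : ℝ, 0 < C ∧ ∀ N : ℕ, 1 ≤ N → ((WW N).card : ℝ) ≤ C * √(N : ℝ) := by
  refine ⟨Real.exp 1 + 4 * Real.exp 1, by positivity, fun N hN => ?_⟩
  obtain ⟨h0, h1, h2⟩ := sqrt_bd hN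
  have h3 := split_sum N hN (fun _ => 1) (fun x => (x : ℝ) / (Nat.totient x : ℝ))
    (fun x => by positivity) (fun x hx => (weight hx).1) (fun x hx => (weight hx).2)
  rw [Finset.sum_const, nsmul_eq_mul, mul_one] at h3
  have h4 := mean_h (Nat.sqrt N)
  have h5 := swap (fun x => (x : ℝ) / (Nat.totient x : ℝ)) (Real.exp 1) (Nat.sqrt N) h0
    (fun x => by positivity) (fun k _ => mean_h k) N (Nat.sqrt_le_self N)
  have hs : (0 : ℝ) < (Nat.sqrt N : ℕ) := by exact_mod_cast h0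
  have h6 : (N : ℝ) * (2 * Real.exp 1 / (Nat.sqrt N : ℕ)) ≤ 4 * Real.exp 1 * √(N : ℝ) := by
    have e1 : (N : ℝ) = √(N : ℝ) * √(N : ℝ) := (Real.mul_self_sqrt (Nat.cast_nonneg N)).symm
    rw [mul_div_assoc', div_le_iff₀ hs]
    have h7 : √(N : ℝ) * √(N : ℝ) ≤ √(N : ℝ) * (2 * (Nat.sqrt N : ℕ)) :=
      mul_le_mul_of_nonneg_left h2 (Real.sqrt_nonneg _)
    have h8 := Real.exp_pos 1
    rw [← e1] at h7
    nlinarith
  have h7 := mul_le_mul_of_nonneg_left h5 (Nat.cast_nonneg (α := ℝ) N)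
  have h8 := mul_le_mul_of_nonneg_left h1 (Real.exp_pos 1).le
  beta_reduce at h3 h7
  linarith

theorem sum_WW : ∃ C : ℝ, 0 < C ∧ ∀ N : ℕ, 16 ≤ N →
    ∑ x ∈ WW N, (1 / 2 : ℝ) ^ x.primeFactors.card ≤ C * √(N : ℝ) / √(Real.log N) := by
  obtain ⟨C, hC, h⟩ := mean_ww
  refine ⟨10 * C, by positivity, fun N hN => ?_⟩
  obtain ⟨h0, h1, h2⟩ := sqrt_bd (by omega : 1 ≤ N)
  have hY : 4 ≤ Nat.sqrt N := by
    rw [Nat.le_sqrt']
    omega
  have hY' : (4 : ℝ) ≤ (Nat.sqrt N : ℕ) := by exact_mod_cast hY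
  have hN' : (16 : ℝ) ≤ N := by exact_mod_cast hN
  have hlY : 0 < Real.log (Nat.sqrt N : ℕ) := Real.log_pos (by linarith)
  have hlN : 0 < Real.log N := Real.log_pos (by linarith)
  have h3 := split_sum N (by omega) (fun x => (1 / 2 : ℝ) ^ x.primeFactors.card) (fun x => ww x)
    ww_nonneg (fun x hx => by
      rw [ww_apply]
      have := (weight hx).1
      have h4 : (0 : ℝ) < (1 / 2) ^ x.primeFactors.card := by positivity
      nlinarith) (fun x hx => by
      rw [ww_apply]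
      have := (weight hx).2
      have h4 : (0 : ℝ) < (1 / 2) ^ x.primeFactors.card := by positivity
      calc (1 / 2 : ℝ) ^ x.primeFactors.card = (1 / 2 : ℝ) ^ x.primeFactors.card * 1 := by ring
        _ ≤ (1 / 2 : ℝ) ^ x.primeFactors.card *
            ((x : ℝ) / (Nat.totient x : ℝ) / (x : ℝ) ^ 2 * N) :=
            mul_le_mul_of_nonneg_left this h4.le
        _ = _ := by ring)
  have h4 := h (Nat.sqrt N) (by omega)
  have h5 := swap (fun x => ww x) (C / √(Real.log (Nat.sqrt N : ℕ))) (Nat.sqrt N) h0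
    ww_nonneg (fun k hk => by
      refine (h k (by omega)).trans ?_
      refine mul_le_mul_of_nonneg_right ?_ (Nat.cast_nonneg k)
      refine div_le_div_of_nonneg_left hC.le (Real.sqrt_pos.2 hlY) (Real.sqrt_le_sqrt ?_)
      exact Real.log_le_log (by linarith) (by exact_mod_cast hk.le)) N (Nat.sqrt_le_self N)
  have hs : (0 : ℝ) < (Nat.sqrt N : ℕ) := by exact_mod_cast h0
  set D := C / √(Real.log (Nat.sqrt N : ℕ)) with hD
  have hD0 : 0 < D := by positivity
  have h6 : (N : ℝ) * (2 * D / (Nat.sqrt N : ℕ)) ≤ 4 * D * √(N : ℝ) := by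
    have e1 : (N : ℝ) = √(N : ℝ) * √(N : ℝ) := (Real.mul_self_sqrt (Nat.cast_nonneg N)).symm
    rw [mul_div_assoc', div_le_iff₀ hs]
    have h7 : √(N : ℝ) * √(N : ℝ) ≤ √(N : ℝ) * (2 * (Nat.sqrt N : ℕ)) :=
      mul_le_mul_of_nonneg_left h2 (Real.sqrt_nonneg _)
    rw [← e1] at h7
    nlinarith
  have h7 := mul_le_mul_of_nonneg_left h5 (Nat.cast_nonneg (α := ℝ) N)
  have h8 := mul_le_mul_of_nonneg_left h1 hD0.le
  have h9 : ∑ x ∈ WW N, (1 / 2 : ℝ) ^ x.primeFactors.card ≤ 5 * D * √(N : ℝ) := by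
    linarith
  refine h9.trans ?_
  have h10 : Real.log N ≤ 4 * Real.log (Nat.sqrt N : ℕ) := by
    have h11 : (N : ℝ) ≤ ((Nat.sqrt N : ℕ) : ℝ) ^ 4 := by
      have h12 : N < (Nat.sqrt N + 1) ^ 2 := by
        rw [pow_two]
        exact Nat.lt_succ_sqrt N
      have h13 : (N : ℝ) < ((Nat.sqrt N : ℕ) + 1 : ℝ) ^ 2 := by exact_mod_cast h12
      nlinarith [sq_nonneg (((Nat.sqrt N : ℕ) : ℝ) ^ 2 - 4)]
    have := Real.log_le_log (by linarith) h11
    rw [Real.log_pow] at this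
    exact_mod_cast this
  have h11 : √(Real.log N) ≤ 2 * √(Real.log (Nat.sqrt N : ℕ)) := by
    have h12 := Real.sqrt_le_sqrt h10
    rw [Real.sqrt_mul (by norm_num), show (4 : ℝ) = 2 ^ 2 by norm_num,
      Real.sqrt_sq (by norm_num)] at h12
    exact h12
  have h12 : D ≤ 2 * C / √(Real.log N) := by
    rw [hD, div_le_div_iff₀ (Real.sqrt_pos.2 hlY) (Real.sqrt_pos.2 hlN)]
    nlinarith
  have h13 := Real.sqrt_nonneg (N : ℝ)
  calc 5 * D * √(N : ℝ) ≤ 5 * (2 * C / √(Real.log N)) * √(N : ℝ) := by gcongr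
    _ = 10 * C * √(N : ℝ) / √(Real.log N) := by ring

end Pool.Agent.PTS
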