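import Mathlib
import Pool.Agent.PTS.Count

/-!
# PTS: sums of two totients of squares are sparse (MP_34ce6f_nt)
-/

set_option autoImplicit false

open Finset Filter Topology

namespace Pool.Agent.PTS

theorem two_pow_dvd {x k : ℕ} (h : k < x.primeFactors.card) : 2 ^ k ∣ Nat.totient x := by
  have h1 : ∏ p ∈ x.primeFactors, (p - 1) ∣ Nat.totient x := by
    rw [Nat.totient_eq_div_primeFactors_mul]
    exact dvd_mul_left _ _
  have h2 : 2 ^ k ∣ ∏ p ∈ x.primeFactors.erase 2, (p - 1) := by
    have h3 : k ≤ (x.primeFactors.erase 2).card := by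
      have := Finset.pred_card_le_card_erase (s := x.primeFactors) (a := 2)
      omega
    refine (pow_dvd_pow 2 h3).trans ?_
    rw [← Finset.prod_const]
    refine Finset.prod_dvd_prod_of_dvd _ _ fun p hp => ?_
    rw [Finset.mem_erase] at hp
    rcases (Nat.prime_of_mem_primeFactors hp.2).eq_two_or_odd' with h | h
    · exact absurd h hp.1
    · exact (Nat.Odd.sub_odd h odd_one).two_dvd
  exact (h2.trans (Finset.prod_dvd_prod_of_subset _ _ _ (Finset.erase_subset _ _))).trans h1

theorem card_bad (N k : ℕ) :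
    (((WW N).filter fun x => ¬ 2 ^ k ∣ Nat.totient x).card : ℝ) ≤
      2 ^ k * ∑ x ∈ WW N, (1 / 2 : ℝ) ^ x.primeFactors.card := by
  rw [Finset.card_filter]
  push_cast
  rw [Finset.mul_sum]
  refine Finset.sum_le_sum fun x _ => ?_
  split_ifs with h
  · positivity
  · have h1 : x.primeFactors.card ≤ k := by
      by_contra h2
      exact h (two_pow_dvd (not_le.1 h2))
    calc (1 : ℝ) = 2 ^ k * (1 / 2) ^ k := by
          rw [← mul_pow]
          norm_num
      _ ≤ 2 ^ k * (1 / 2) ^ x.primeFactors.card :=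
          mul_le_mul_of_nonneg_left (pow_le_pow_of_le_one (by norm_num) (by norm_num) h1)
            (by positivity)

open Classical in
theorem card_class (N m : ℕ) (P : ℕ → Prop)
    (h : ∀ a b, P a → P b → a ≡ b [MOD m]) :
    ((Ioc 0 N).filter P).card ≤ N / m + 1 := by
  have h1 : (((Ioc 0 N).filter P).image fun n => n / m).card = ((Ioc 0 N).filter P).card := by
    refine Finset.card_image_of_injOn fun a ha b hb hab => ?_
    have h2 : a % m = b % m := h a b (Finset.mem_filter.1 ha).2 (Finset.mem_filter.1 hb).2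
    have h3 : a / m = b / m := hab
    rw [← Nat.div_add_mod a m, ← Nat.div_add_mod b m, h2, h3]
  rw [← h1]
  have h4 : (((Ioc 0 N).filter P).image fun n => n / m) ⊆ range (N / m + 1) := by
    intro t ht
    rw [Finset.mem_image] at ht
    obtain ⟨n, hn, rfl⟩ := ht
    rw [Finset.mem_filter, Finset.mem_Ioc] at hn
    rw [Finset.mem_range]
    exact Nat.lt_succ_of_le (Nat.div_le_div_right hn.1.2)
  exact (Finset.card_le_card h4).trans (Finset.card_range _).le

theorem le_self_mul (x : ℕ) (hx : 1 ≤ x) : x ≤ x * Nat.totient x :=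
  Nat.le_mul_of_pos_right x (Nat.totient_pos.2 hx)

open Classical in
/-- for every shift `c` few integers `n` have `2 n - c` of the form `φ(x²) + φ(y²)` -/
theorem core : ∃ C : ℝ, 0 < C ∧ ∀ c N : ℕ, 16 ≤ N →
    (((Ioc 0 N).filter fun n => ∃ x y : ℕ, 1 ≤ x ∧ 1 ≤ y ∧
      2 * n = c + x * Nat.totient x + y * Nat.totient y).card : ℝ) ≤
      C * N / Real.log N ^ (1 / 4 : ℝ) := by
  obtain ⟨C₁, hC₁, H₁⟩ := card_WW
  obtain ⟨C₂, hC₂, H₂⟩ := sum_WW
  refine ⟨3 + 8 * (C₁ * C₂), by positivity, fun c N hN => ?_⟩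
  have hN' : (16 : ℝ) ≤ N := by exact_mod_cast hN
  have hlog : 1 ≤ Real.log N := by
    have h1 : Real.exp 1 ≤ N := by
      have := Real.exp_one_lt_d9
      linarith
    have := Real.log_le_log (Real.exp_pos 1) h1
    rwa [Real.log_exp] at this
  set L := Real.log N ^ (1 / 4 : ℝ) with hL
  have hL1 : 1 ≤ L := Real.one_le_rpow hlog (by norm_num)
  have hL0 : 0 < L := by linarith
  have hLL : L * L = √(Real.log N) := by
    rw [hL, ← Real.rpow_add (by linarith), Real.sqrt_eq_rpow]
    norm_num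
  have hLN : L ≤ N := by
    have h1 : L ≤ Real.log N := by
      have := Real.rpow_le_rpow_of_exponent_le hlog (show (1 / 4 : ℝ) ≤ 1 by norm_num)
      rwa [Real.rpow_one] at this
    exact h1.trans ((Real.log_le_sub_one_of_pos (by linarith)).trans (by linarith))
  obtain ⟨k, hk1, hk2⟩ := exists_nat_pow_near hL1 (show (1 : ℝ) < 2 by norm_num)
  set W := WW (2 * N) with hW
  set B := W.filter fun x => ¬ 2 ^ (k + 1) ∣ Nat.totient x with hB
  set S := (Ioc 0 N).filter fun n => ∃ t : ℕ, 2 * n = c + 2 ^ (k + 1) * t with hS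
  set T := ((B ×ˢ W) ∪ (W ×ˢ B)).image
    (fun z : ℕ × ℕ => (c + z.1 * Nat.totient z.1 + z.2 * Nat.totient z.2) / 2) with hT
  have hsub : ((Ioc 0 N).filter fun n => ∃ x y : ℕ, 1 ≤ x ∧ 1 ≤ y ∧
      2 * n = c + x * Nat.totient x + y * Nat.totient y) ⊆ S ∪ T := by
    intro n hn
    rw [Finset.mem_filter] at hn
    obtain ⟨hn0, x, y, hx, hy, he⟩ := hn
    have hn1 := Finset.mem_Ioc.1 hn0
    have hxW : x ∈ W := by
      rw [hW, WW, Finset.mem_filter, Finset.mem_Ioc]
      have := le_self_mul x hx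
      omega
    have hyW : y ∈ W := by
      rw [hW, WW, Finset.mem_filter, Finset.mem_Ioc]
      have := le_self_mul y hy
      omega
    rw [Finset.mem_union]
    by_cases h1 : 2 ^ (k + 1) ∣ Nat.totient x
    · by_cases h2 : 2 ^ (k + 1) ∣ Nat.totient y
      · left
        rw [hS, Finset.mem_filter]
        refine ⟨hn0, ?_⟩
        obtain ⟨s, hs⟩ := h1
        obtain ⟨t, ht⟩ := h2
        refine ⟨x * s + y * t, ?_⟩
        rw [he, hs, ht]
        ring
      · right
        rw [hT, Finset.mem_image]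
        refine ⟨(x, y), ?_, ?_⟩
        · rw [Finset.mem_union]
          right
          rw [Finset.mem_product, hB, Finset.mem_filter]
          exact ⟨hxW, hyW, h2⟩
        · simp only
          rw [← he]
          omega
    · right
      rw [hT, Finset.mem_image]
      refine ⟨(x, y), ?_, ?_⟩
      · rw [Finset.mem_union]
        left
        rw [Finset.mem_product, hB, Finset.mem_filter]
        exact ⟨⟨hxW, h1⟩, hyW⟩
      · simp only
        rw [← he]
        omega
  have hcS : (S.card : ℝ) ≤ 2 * (N / L) + 1 := by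
    have h1 : S.card ≤ N / 2 ^ k + 1 := by
      refine card_class N (2 ^ k) _ fun a b ha hb => ?_
      obtain ⟨s, hs⟩ := ha
      obtain ⟨t, ht⟩ := hb
      rw [Nat.modEq_iff_dvd]
      refine ⟨(t : ℤ) - s, ?_⟩
      have e1 : (2 : ℤ) * a = c + 2 ^ (k + 1) * s := by exact_mod_cast hs
      have e2 : (2 : ℤ) * b = c + 2 ^ (k + 1) * t := by exact_mod_cast ht
      have e3 : (2 : ℤ) * (b - a) = 2 * (2 ^ k * (t - s)) := by
        rw [mul_sub, e1, e2]
        ring
      push_cast
      linarith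
    have h2 : (S.card : ℝ) ≤ ((N / 2 ^ k : ℕ) : ℝ) + 1 := by exact_mod_cast h1
    have h3 : ((N / 2 ^ k : ℕ) : ℝ) ≤ (N : ℝ) / 2 ^ k := by
      have := Nat.cast_div_le (α := ℝ) (m := N) (n := 2 ^ k)
      push_cast at this
      exact this
    have h4 : (N : ℝ) / 2 ^ k ≤ 2 * (N / L) := by
      rw [div_le_iff₀ (by positivity)]
      have h5 : 2 * ((N : ℝ) / L) * 2 ^ k = (N / L) * 2 ^ (k + 1) := by ring
      rw [h5]
      calc (N : ℝ) = N / L * L := by field_simp
        _ ≤ N / L * 2 ^ (k + 1) := mul_le_mul_of_nonneg_left hk2.le (by positivity)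
    linarith
  have hcB : (B.card : ℝ) * W.card ≤ 4 * (C₁ * C₂) * (N / L) := by
    have h1 := card_bad (2 * N) (k + 1)
    have h2 := H₂ (2 * N) (by omega)
    have h3 := H₁ (2 * N) (by omega)
    have h4 : (B.card : ℝ) ≤ 2 ^ (k + 1) *
        (C₂ * √((2 * N : ℕ) : ℝ) / √(Real.log ((2 * N : ℕ) : ℝ))) :=
      h1.trans (mul_le_mul_of_nonneg_left h2 (by positivity))
    have h5 : √(Real.log N) ≤ √(Real.log ((2 * N : ℕ) : ℝ)) := by
      refine Real.sqrt_le_sqrt (Real.log_le_log (by linarith) ?_)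
      push_cast
      linarith
    have h6 : 0 < √(Real.log N) := Real.sqrt_pos.2 (by linarith)
    have h7 : √((2 * N : ℕ) : ℝ) * √((2 * N : ℕ) : ℝ) = 2 * N := by
      rw [Real.mul_self_sqrt (Nat.cast_nonneg _)]
      push_cast
      ring
    calc (B.card : ℝ) * W.card
        ≤ (2 ^ (k + 1) * (C₂ * √((2 * N : ℕ) : ℝ) / √(Real.log ((2 * N : ℕ) : ℝ)))) *
          (C₁ * √((2 * N : ℕ) : ℝ)) := by
          refine mul_le_mul h4 h3 (Nat.cast_nonneg _) (by positivity)
      _ ≤ (2 ^ (k + 1) * (C₂ * √((2 * N : ℕ) : ℝ) / √(Real.log N))) *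
          (C₁ * √((2 * N : ℕ) : ℝ)) := by
          gcongr
      _ = 4 * (C₁ * C₂) * (2 ^ k * (N / √(Real.log N))) := by
          have : (2 ^ (k + 1) * (C₂ * √((2 * N : ℕ) : ℝ) / √(Real.log N))) *
              (C₁ * √((2 * N : ℕ) : ℝ)) = 2 ^ (k + 1) * (C₁ * C₂) *
                (√((2 * N : ℕ) : ℝ) * √((2 * N : ℕ) : ℝ)) / √(Real.log N) := by ring
          rw [this, h7]
          ring
      _ ≤ 4 * (C₁ * C₂) * (L * (N / √(Real.log N))) := by
          gcongr
      _ = 4 * (C₁ * C₂) * (N / L) := by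
          rw [← hLL]
          field_simp
  have hcT : (T.card : ℝ) ≤ 8 * (C₁ * C₂) * (N / L) := by
    have h1 : T.card ≤ B.card * W.card + W.card * B.card := by
      refine Finset.card_image_le.trans ((Finset.card_union_le _ _).trans ?_)
      rw [Finset.card_product, Finset.card_product]
    have h2 : (T.card : ℝ) ≤ (B.card : ℝ) * W.card + W.card * B.card := by exact_mod_cast h1
    linarith
  have hfin : ((S ∪ T).card : ℝ) ≤ S.card + T.card := by
    exact_mod_cast Finset.card_union_le S T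
  have h1 : (1 : ℝ) ≤ N / L := by
    rw [le_div_iff₀ hL0]
    linarith
  calc _ ≤ ((S ∪ T).card : ℝ) := by exact_mod_cast Finset.card_le_card hsub
    _ ≤ (3 + 8 * (C₁ * C₂)) * (N / L) := by linarith
    _ = _ := by ring

end Pool.Agent.PTS
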